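import Mathlib

/-!
The generators `p_0 = 1`, `p_{n+1} = 2 (n+2)^2 p_n + 1` and the weights `a_n = 1/(n+1)`:
iterated balanced remainders are locally constant on bounded sets for the Gleason norm.
-/

set_option autoImplicit false
open Filter Topology

namespace Pool.Agent.Lib.MP_ab8afa_al

/-- The generators `p_0 = 1`, `p_{n+1} = 2 (n+2)^2 p_n + 1`. -/
def pp : ℕ → ℕ
  | 0 => 1
  | n + 1 => 2 * (n + 2) ^ 2 * pp n + 1

/-- The weights `a_n = 1/(n+1)`. -/
noncomputable def aa (n : ℕ) : ℝ := 1 / ((n : ℝ) + 1)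

/-- Iterated balanced remainders modulo `p_n`, then `p_{n-1}`, down to `p_1`. -/
def ff : ℕ → ℤ → ℤ
  | 0, x => x
  | n + 1, x => ff n (Int.bmod x (pp (n + 1)))

/-- The eventual value of the iterated balanced remainders. -/
def FF (x : ℤ) : ℤ := ff x.natAbs x

lemma pp_pos (n : ℕ) : 0 < pp n := by
  cases n with
  | zero => simp [pp]
  | succ n => simp [pp]

lemma pp_succ (n : ℕ) : pp (n + 1) = 2 * (n + 2) ^ 2 * pp n + 1 := rfl

lemma pp_mono_succ (n : ℕ) : pp n ≤ pp (n + 1) := by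
  rw [pp_succ]
  have h : 1 ≤ 2 * (n + 2) ^ 2 := Nat.succ_le_of_lt (by positivity)
  have h2 : 1 * pp n ≤ 2 * (n + 2) ^ 2 * pp n := Nat.mul_le_mul_right _ h
  omega

lemma pp_mono : Monotone pp := monotone_nat_of_le_succ pp_mono_succ

lemma aa_pos (n : ℕ) : 0 < aa n := by
  unfold aa; positivity

lemma ff_succ_of_small (n : ℕ) (x : ℤ) (h : 2 * |x| < pp (n + 1)) :
    ff (n + 1) x = ff n x := by
  have h1 : Int.bmod x (pp (n + 1)) = x := by
    apply Int.bmod_eq_of_le_mul_two
    · have := neg_abs_le x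
      omega
    · have := le_abs_self x
      omega
  simp only [ff, h1]

lemma ff_eq_FF (n : ℕ) (x : ℤ) (h : x.natAbs ≤ n) : ff n x = FF x := by
  induction n, h using Nat.le_induction with
  | base => rfl
  | succ n hn ih =>
    rw [ff_succ_of_small n x, ih]
    have h1 : |x| ≤ n := by
      rw [Int.abs_eq_natAbs]; exact_mod_cast hn
    have h2 : (2 * (n : ℤ)) < (pp (n + 1) : ℤ) := by
      rw [pp_succ]
      push_cast
      have : (1 : ℤ) ≤ pp n := by exact_mod_cast pp_pos n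
      nlinarith [sq_nonneg ((n : ℤ))]
    linarith

/-- The integer represented by a coefficient sequence. -/
def val (c : ℕ →₀ ℤ) : ℤ := c.sum (fun i c => c * (pp i : ℤ))

/-- The cost of a coefficient sequence. -/
noncomputable def cost (c : ℕ →₀ ℤ) : ℝ := c.sum (fun i c => |(c : ℝ)| * aa i)

lemma val_add (c d : ℕ →₀ ℤ) : val (c + d) = val c + val d := by
  unfold val
  exact Finsupp.sum_add_index' (by simp) (by intros; ring)

lemma val_neg (c : ℕ →₀ ℤ) : val (-c) = - val c := by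
  have h := val_add c (-c)
  have h0 : val 0 = 0 := by simp [val]
  rw [add_neg_cancel, h0] at h
  linarith

lemma cost_eq (c : ℕ →₀ ℤ) (s : Finset ℕ) (hs : c.support ⊆ s) :
    cost c = ∑ i ∈ s, |(c i : ℝ)| * aa i := by
  unfold cost
  exact Finsupp.sum_of_support_subset c hs _ (by simp)

lemma val_eq (c : ℕ →₀ ℤ) (s : Finset ℕ) (hs : c.support ⊆ s) :
    val c = ∑ i ∈ s, c i * (pp i : ℤ) := by
  unfold val
  exact Finsupp.sum_of_support_subset c hs _ (by simp)

lemma cost_nonneg (c : ℕ →₀ ℤ) : 0 ≤ cost c := by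
  unfold cost
  exact Finset.sum_nonneg fun i _ => mul_nonneg (abs_nonneg _) (aa_pos i).le

lemma cost_add_le (c d : ℕ →₀ ℤ) : cost (c + d) ≤ cost c + cost d := by
  classical
  rw [cost_eq (c + d) (c.support ∪ d.support) Finsupp.support_add,
    cost_eq c (c.support ∪ d.support) Finset.subset_union_left,
    cost_eq d (c.support ∪ d.support) Finset.subset_union_right, ← Finset.sum_add_distrib]
  apply Finset.sum_le_sum
  intro i _
  rw [← add_mul]
  apply mul_le_mul_of_nonneg_right _ (aa_pos i).le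
  simp only [Finsupp.coe_add, Pi.add_apply, Int.cast_add]
  exact abs_add_le _ _

lemma cost_neg (c : ℕ →₀ ℤ) : cost (-c) = cost c := by
  rw [cost_eq (-c) c.support (by simp), cost_eq c c.support subset_rfl]
  simp

lemma term_le_cost (c : ℕ →₀ ℤ) (i : ℕ) : |(c i : ℝ)| * aa i ≤ cost c := by
  classical
  rw [cost_eq c (insert i c.support) (Finset.subset_insert _ _)]
  exact Finset.single_le_sum (f := fun i => |(c i : ℝ)| * aa i)
    (fun j _ => mul_nonneg (abs_nonneg _) (aa_pos j).le) (Finset.mem_insert_self _ _)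

lemma sum_range_le_cost (c : ℕ →₀ ℤ) (m : ℕ) :
    ∑ i ∈ Finset.range m, |(c i : ℝ)| * aa i ≤ cost c := by
  classical
  rw [cost_eq c (Finset.range m ∪ c.support) Finset.subset_union_right]
  exact Finset.sum_le_sum_of_subset_of_nonneg Finset.subset_union_left
    (fun j _ _ => mul_nonneg (abs_nonneg _) (aa_pos j).le)

/-- Truncations of cheap representations are small. -/
lemma trunc_small (c : ℕ →₀ ℤ) (m0 : ℕ) (hc : cost c ≤ m0) (k : ℕ) (hk : m0 ≤ k + 1) :
    2 * |∑ i ∈ Finset.range (k + 1), c i * (pp i : ℤ)| < pp (k + 1) := by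
  have h1 : (|∑ i ∈ Finset.range (k + 1), (c i : ℝ) * (pp i : ℝ)|) ≤
      ((k : ℝ) + 1) * pp k * cost c := by
    calc |∑ i ∈ Finset.range (k + 1), (c i : ℝ) * (pp i : ℝ)|
        ≤ ∑ i ∈ Finset.range (k + 1), |(c i : ℝ) * (pp i : ℝ)| := Finset.abs_sum_le_sum_abs _ _
      _ ≤ ∑ i ∈ Finset.range (k + 1), ((k : ℝ) + 1) * pp k * (|(c i : ℝ)| * aa i) := by
          apply Finset.sum_le_sum
          intro i hi
          have hik : i ≤ k := Nat.lt_succ_iff.mp (Finset.mem_range.mp hi)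
          rw [abs_mul, Nat.abs_cast]
          have h2 : (pp i : ℝ) ≤ ((k : ℝ) + 1) * pp k * aa i := by
            unfold aa
            have h3 : (pp i : ℝ) ≤ pp k := by exact_mod_cast pp_mono hik
            have h4 : ((i : ℝ) + 1) ≤ (k : ℝ) + 1 := by
              have : (i : ℝ) ≤ k := by exact_mod_cast hik
              linarith
            have h5 : (0 : ℝ) < (i : ℝ) + 1 := by positivity
            rw [mul_one_div, le_div_iff₀ h5]
            have h6 : (0 : ℝ) ≤ pp i := by positivity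
            nlinarith
          have h7 : 0 ≤ |(c i : ℝ)| := abs_nonneg _
          nlinarith
      _ = ((k : ℝ) + 1) * pp k * ∑ i ∈ Finset.range (k + 1), |(c i : ℝ)| * aa i := by
          rw [Finset.mul_sum]
      _ ≤ ((k : ℝ) + 1) * pp k * cost c := by
          apply mul_le_mul_of_nonneg_left (sum_range_le_cost c _)
          positivity
  have h8 : (2 : ℝ) * |∑ i ∈ Finset.range (k + 1), (c i : ℝ) * (pp i : ℝ)| < (pp (k + 1) : ℝ) := by
    have h9 : (m0 : ℝ) ≤ (k : ℝ) + 1 := by exact_mod_cast hk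
    have h10 : (0 : ℝ) < pp k := by exact_mod_cast pp_pos k
    have h11 : (pp (k + 1) : ℝ) = 2 * ((k : ℝ) + 2) ^ 2 * pp k + 1 := by
      rw [pp_succ]; push_cast; ring
    have h12 : ((k : ℝ) + 1) * pp k * cost c ≤ ((k : ℝ) + 1) * pp k * ((k : ℝ) + 1) := by
      apply mul_le_mul_of_nonneg_left (hc.trans h9)
      positivity
    rw [h11]
    have h13 : (0 : ℝ) ≤ k := by positivity
    nlinarith [mul_pos h10 (by positivity : (0 : ℝ) < (k : ℝ) + 1)]
  have h14 : (((2 * |∑ i ∈ Finset.range (k + 1), c i * (pp i : ℤ)| : ℤ)) : ℝ) <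
      ((pp (k + 1) : ℤ) : ℝ) := by
    push_cast
    exact h8
  exact_mod_cast h14

lemma ff_trunc (c : ℕ →₀ ℤ) (m0 : ℕ) (hc : cost c ≤ m0) (k : ℕ) (hk : m0 ≤ k) :
    ff k (∑ i ∈ Finset.range (k + 1), c i * (pp i : ℤ)) =
      ff m0 (∑ i ∈ Finset.range (m0 + 1), c i * (pp i : ℤ)) := by
  induction k, hk using Nat.le_induction with
  | base => rfl
  | succ k hk ih =>
    rw [← ih]
    have h1 := trunc_small c m0 hc k (by omega)
    have h2 : Int.bmod (∑ i ∈ Finset.range (k + 1 + 1), c i * (pp i : ℤ)) (pp (k + 1)) =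
        ∑ i ∈ Finset.range (k + 1), c i * (pp i : ℤ) := by
      rw [Finset.sum_range_succ _ (k + 1), Int.add_mul_bmod_self_right]
      apply Int.bmod_eq_of_le_mul_two
      · have := neg_abs_le (∑ i ∈ Finset.range (k + 1), c i * (pp i : ℤ))
        omega
      · have := le_abs_self (∑ i ∈ Finset.range (k + 1), c i * (pp i : ℤ))
        omega
    simp only [ff, h2]

/-- Key lemma: the invariant `FF` only sees the low digits of any cheap representation. -/
lemma FF_val (c : ℕ →₀ ℤ) (m0 : ℕ) (hc : cost c ≤ m0) :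
    FF (val c) = ff m0 (∑ i ∈ Finset.range (m0 + 1), c i * (pp i : ℤ)) := by
  classical
  obtain ⟨K, hK⟩ : ∃ K : ℕ, c.support ⊆ Finset.range K := by
    refine ⟨c.support.sup id + 1, fun i hi => ?_⟩
    rw [Finset.mem_range]
    exact Nat.lt_succ_of_le (Finset.le_sup (f := id) hi)
  set k := max (max K m0) (val c).natAbs with hk
  have hk1 : c.support ⊆ Finset.range (k + 1) := by
    refine hK.trans (Finset.range_subset_range.mpr ?_)
    have : K ≤ k := le_trans (le_max_left _ _) (le_max_left _ _)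
    omega
  have hk2 : m0 ≤ k := le_trans (le_max_right _ _) (le_max_left _ _)
  have hk3 : (val c).natAbs ≤ k := le_max_right _ _
  rw [← ff_trunc c m0 hc k hk2, ← val_eq c _ hk1, ff_eq_FF k _ hk3]


theorem aa_one : aa 0 = 1 := by simp [aa]

theorem aa_anti : StrictAnti aa := by
  intro i j hij
  unfold aa
  have h1 : (i : ℝ) < j := by exact_mod_cast hij
  apply one_div_lt_one_div_of_lt (by positivity) (by linarith)

theorem aa_tendsto : Tendsto aa atTop (𝓝 0) := tendsto_one_div_add_atTop_nhds_zero_nat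

theorem pp_growth (n : ℕ) : 1 ≤ aa n * ((pp (n + 1) : ℝ) / (pp n : ℝ) - 1) := by
  have h1 : (0 : ℝ) < pp n := by exact_mod_cast pp_pos n
  have h2 : (pp (n + 1) : ℝ) = 2 * ((n : ℝ) + 2) ^ 2 * pp n + 1 := by
    rw [pp_succ]; push_cast; ring
  have h3 : ((n : ℝ) + 1) ≤ (pp (n + 1) : ℝ) / (pp n : ℝ) - 1 := by
    rw [h2, le_sub_iff_add_le, le_div_iff₀ h1]
    have h4 : (0 : ℝ) ≤ n := by positivity
    nlinarith
  unfold aa
  rw [one_div, ← div_eq_inv_mul, le_div_iff₀ (by positivity)]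
  linarith

/-- The Gleason norm for the generators `pp` and the weights `aa`. -/
noncomputable def NN (z : ℤ) : ℝ := sInf {r : ℝ | ∃ k : ℕ →₀ ℤ, val k = z ∧ r = cost k}

theorem NN_ne (z : ℤ) : {r : ℝ | ∃ k : ℕ →₀ ℤ, val k = z ∧ r = cost k}.Nonempty := by
  refine ⟨cost (Finsupp.single 0 z), Finsupp.single 0 z, ?_, rfl⟩
  simp [val, pp]

theorem NN_bdd (z : ℤ) : BddBelow {r : ℝ | ∃ k : ℕ →₀ ℤ, val k = z ∧ r = cost k} := by
  refine ⟨0, ?_⟩
  rintro r ⟨k, _, rfl⟩
  exact cost_nonneg k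

theorem NN_le (c : ℕ →₀ ℤ) : NN (val c) ≤ cost c := csInf_le (NN_bdd _) ⟨c, rfl, rfl⟩

theorem NN_ex {z : ℤ} {t : ℝ} (ht : NN z < t) : ∃ c : ℕ →₀ ℤ, val c = z ∧ cost c < t := by
  obtain ⟨r, ⟨c, hc, rfl⟩, hr⟩ := exists_lt_of_csInf_lt (NN_ne z) ht
  exact ⟨c, hc, hr⟩

theorem NN_nonneg (z : ℤ) : 0 ≤ NN z := by
  apply Real.sInf_nonneg
  rintro r ⟨k, _, rfl⟩
  exact cost_nonneg k

theorem NN_sub_le (z w : ℤ) : NN (z - w) ≤ NN z + NN w := by
  apply le_of_forall_pos_le_add
  intro ε hε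
  obtain ⟨c, hc, hc'⟩ := NN_ex (show NN z < NN z + ε / 2 by linarith)
  obtain ⟨d, hd, hd'⟩ := NN_ex (show NN w < NN w + ε / 2 by linarith)
  have h1 := NN_le (c + -d)
  rw [val_add, val_neg, hc, hd, ← sub_eq_add_neg] at h1
  have h2 := cost_add_le c (-d)
  rw [cost_neg] at h2
  linarith

/-- On the set `N ≤ B` the invariant `FF` is locally constant, uniformly. -/
theorem FF_eq {B : ℝ} {m0 : ℕ} (hm0 : B + 2 < m0) {x y : ℤ} (hx : NN x ≤ B)
    (hi : NN (x - y) < aa m0) : FF x = FF y := by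
  obtain ⟨c, hc, hc'⟩ := NN_ex (show NN x < B + 1 by linarith)
  obtain ⟨d, hd, hd'⟩ := NN_ex hi
  have haa1 : aa m0 ≤ 1 := by
    unfold aa
    rw [div_le_one (by positivity)]
    have : (0 : ℝ) ≤ m0 := by positivity
    linarith
  have hd0 : ∀ j ≤ m0, d j = 0 := by
    intro j hj
    by_contra hne0
    have h1 : (1 : ℝ) ≤ |(d j : ℝ)| := by
      have : (1 : ℤ) ≤ |d j| := Int.one_le_abs hne0
      exact_mod_cast this
    have h2 := term_le_cost d j
    have h3 : aa m0 ≤ aa j := by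
      unfold aa
      have : (j : ℝ) ≤ m0 := by exact_mod_cast hj
      apply one_div_le_one_div_of_le (by positivity) (by linarith)
    have h4 := aa_pos j
    nlinarith
  have hyv : val (c + -d) = y := by
    rw [val_add, val_neg, hc, hd]; ring
  have hcost : cost (c + -d) ≤ m0 := by
    have h2 := cost_add_le c (-d)
    rw [cost_neg] at h2
    linarith
  have hFx := FF_val c m0 (by linarith)
  have hFy := FF_val (c + -d) m0 hcost
  rw [hc] at hFx
  rw [hyv] at hFy
  have hsum : ∑ j ∈ Finset.range (m0 + 1), (c + -d) j * (pp j : ℤ) =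
      ∑ j ∈ Finset.range (m0 + 1), c j * (pp j : ℤ) := by
    apply Finset.sum_congr rfl
    intro j hj
    have : d j = 0 := hd0 j (Nat.lt_succ_iff.mp (Finset.mem_range.mp hj))
    simp [this]
  rw [hsum, ← hFx] at hFy
  exact hFy.symm

theorem FF_zero : FF 0 = 0 := rfl

theorem FF_one : FF 1 ≠ 0 := by
  change ¬ (ff 1 1 = 0)
  decide

end Pool.Agent.Lib.MP_ab8afa_al
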